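import Pool.Agent.H3.MQ.K
import Pool.Graph.R_pool_sql_team_seeded_64922ed1.X307.SelT
import Pool.Graph.R_pool_sql_team_seeded_843ab51a.V11329.KI.EC
import Pool.Graph.R_pool_sql_team_seeded_843ab51a.V11329.KI.QuadB

/-!
# The Abel-Jacobi map over multiquadratic fields

The proofs of `sha0` and `aj_twists` follow `Pool.Agent.H3.MQ.h1f0`, `Pool.Agent.H3.MQ.main0`,
`Pool.Agent.H3.MQ.main1` of helper3.
-/

set_option autoImplicit false

open NumberField

namespace Pool.Agent.H82.AJ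

open Pool.Agent.N856.MT (EK)
open Pool.Agent.Y700 (VR)
open Pool.Agent.TH841.NF (Sc tw thS thS_ker Qb)
open Pool.Agent.H3.S15 (NI niVR)
open Pool.Agent.H3.MQ (Tw0 sqf_sq dvd_of_sq kum disc_tw EK_ne EK_disc vr_scale eQ fin0)
open Pool.Agent.X307 (AJIso H1f)
open Pool.Agent.TH841.SH.D (Pt)

/-- The 2-adic Abel–Jacobi map of `W` over `K` is an isomorphism of zero spaces, and there are finitely many
points. -/
def AJ0 (K : Type) [Field K] [NumberField K] (W : WeierstrassCurve K) : Prop :=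
  AJIso 2 W ∧ Finite (Pt W K) ∧ ∀ x : H1f 2 W, x = 0

theorem ten_zero {p : ℕ} [Fact p.Prime] {M : Type} [AddCommGroup M] [Finite M]
    (x : Pool.Agent.X307.Ten p M) : x = 0 := by
  have key : ∀ y : TensorProduct ℤ ℚ_[p] M, y = 0 := by
    intro y
    induction y using TensorProduct.induction_on with
    | zero => rfl
    | tmul α P =>
      have hn : ((addOrderOf P : ℕ) : ℚ_[p]) ≠ 0 := Nat.cast_ne_zero.2 (addOrderOf_pos P).ne'
      have e : α = (addOrderOf P) • (α / (addOrderOf P : ℕ)) := by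
        rw [nsmul_eq_mul, mul_div_cancel₀ _ hn]
      rw [e, TensorProduct.smul_tmul, addOrderOf_nsmul_eq_zero, TensorProduct.tmul_zero]
    | add y z hy hz => rw [hy, hz, add_zero]
  exact key x

theorem aj_of_zero {K : Type} [Field K] [NumberField K] {W : WeierstrassCurve K} (hD : W.Δ ≠ 0)
    (hfin : Finite W.toAffine.Point) (n : ℕ)
    (hS : ∀ (k : ℕ) (x : Pool.Agent.TH841.NF.D.Sha W), (2 ^ k : ℕ) • x = 0 →
      (2 ^ n : ℕ) • x = 0) :
    AJ0 K W := by
  obtain ⟨e⟩ := Pool.Agent.X307.pt_equiv W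
  have hMP : Finite (Pool.Agent.Y682.MP W) := hfin
  have hfin' : Finite (Pt W K) := Finite.of_equiv (Pool.Agent.Y682.MP W) e.symm.toEquiv
  have hfg : Module.Finite ℤ (Pt W K) := Module.Finite.of_finite
  have hdiv : ∀ x : Pool.Agent.X307.Pb W, ∃ y, 2 • y = x := by
    intro x
    have hD' : (W.baseChange (AlgebraicClosure K)).Δ ≠ 0 := by
      rw [WeierstrassCurve.baseChange, WeierstrassCurve.map_Δ]
      exact (map_ne_zero _).2 hD
    classical
    exact Pool.Agent.V11329.KI.div2 hD' x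
  have hiso : AJIso 2 W := by
    rw [Pool.Agent.X307.ajIso_iff hdiv hfg]
    exact Pool.Agent.X307.v_zero n hS
  refine ⟨hiso, hfin', ?_⟩
  obtain ⟨Φ, -⟩ := hiso
  intro x
  rw [← Φ.apply_symm_apply x, ten_zero (Φ.symm x), map_zero]

variable {F : Type} [Field F] [NumberField F]

/-- **the 2-primary part of the Tate–Shafarevich group** -/
theorem sha0 {a b : ℤ} (h0 : 4 * a ^ 3 + 27 * b ^ 2 ≠ 0) {n : ℕ} {r : Fin n → F} {d : Fin n → ℤ}
    (hr : ∀ i, r i ^ 2 = (d i : F)) (hd : ∀ i, d i ≠ 0)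
    (hgen : IntermediateField.adjoin ℚ (Set.range r) = ⊤)
    (hs : Tw0 F a b fun a' b' => ∀ x : Pool.Agent.TH841.SH.D.Sha (EK ℚ a' b'), x + x = 0 → x = 0) :
    ∀ (k : ℕ) (x : Pool.Agent.TH841.NF.D.Sha (EK F a b)), (2 ^ k : ℕ) • x = 0 →
      (2 ^ n : ℕ) • x = 0 := by
  have hW : Sc (algebraMap ℚ F) 1 (EK ℚ a b) (EK F a b) := by
    refine ⟨one_ne_zero, ?_, ?_, ?_, ?_, ?_⟩
    · simp [EK]
    · simp [EK]
    · simp [EK]
    · simp [EK]
    · simp [EK]
  have hr' : ∀ i, r i ^ 2 = algebraMap ℚ F ((d i : ℤ) : ℚ) := by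
    intro i
    rw [hr i, eq_ratCast, Rat.cast_intCast]
  have hd' : ∀ i, ((d i : ℤ) : ℚ) ≠ 0 := fun i => by exact_mod_cast hd i
  -- the twists
  have key : ∀ T : Finset (Fin n),
      ∀ x : Pool.Agent.TH841.SH.D.Sha (tw (∏ i ∈ T, ((d i : ℤ) : ℚ)) (EK ℚ a b)),
        x + x = 0 → x = 0 := by
    intro T
    have hD0 : ∏ i ∈ T, d i ≠ 0 := Finset.prod_ne_zero_iff.2 fun i _ => hd i
    obtain ⟨c, k, hc, hk, hck⟩ := sqf_sq _ hD0
    have hc0 := hc.ne_zero
    have hkF : (k : F) ≠ 0 := by exact_mod_cast hk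
    obtain ⟨a', b', g, hg, ha, hb, hS⟩ := hs c hc ⟨(∏ i ∈ T, r i) / k, by
      rw [div_pow, ← Finset.prod_pow, Finset.prod_congr rfl fun i _ => hr i,
        div_eq_iff (pow_ne_zero 2 hkF)]
      have := congrArg (fun z : ℤ => (z : F)) hck
      push_cast at this
      exact this⟩
    have hΔ := disc_tw h0 hc0 ha hb
    -- the change of variables
    have e1 : tw (∏ i ∈ T, ((d i : ℤ) : ℚ)) (EK ℚ a b) =
        (⟨0, 0, 0, (c * k ^ 2 : ℚ) ^ 2 * a, (c * k ^ 2 : ℚ) ^ 3 * b⟩ : WeierstrassCurve ℚ) := by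
      have : (∏ i ∈ T, ((d i : ℤ) : ℚ)) = c * k ^ 2 := by
        rw [← Int.cast_prod, hck]
        push_cast
        ring
      rw [this]
      unfold tw EK
      rw [mul_zero]
    have e2 : EK ℚ a' b' = (⟨0, 0, 0, a', b'⟩ : WeierstrassCurve ℚ) := rfl
    have ha' : (a : ℚ) * c ^ 2 = a' * g ^ 4 := by exact_mod_cast ha
    have hb' : (b : ℚ) * c ^ 3 = b' * g ^ 6 := by exact_mod_cast hb
    have hV := vr_scale (A := (c * k ^ 2 : ℚ) ^ 2 * a) (B := (c * k ^ 2 : ℚ) ^ 3 * b) (A' := a')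
      (B' := b') (g := g * k) (by exact_mod_cast mul_ne_zero hg hk)
      (by linear_combination (k : ℚ) ^ 4 * ha') (by linear_combination (k : ℚ) ^ 6 * hb')
    rw [← e1, ← e2] at hV
    have hI := (niVR hV (EK_ne hΔ)).eSha
    intro x hx
    have h2 : hI.symm x = 0 := by
      apply hS
      rw [← map_add, hx, map_zero]
    exact (AddEquiv.map_eq_zero_iff hI.symm).1 h2
  intro k x hx
  refine thS_ker hW rfl rfl (eQ F) hr' hd' hgen x fun T => ?_
  have h3 : (2 ^ k : ℕ) • thS hW rfl rfl (eQ F) hr' hd' hgen T x = 0 := by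
    rw [← map_nsmul, hx, map_zero]
  clear hx
  have h4 : ∀ (k : ℕ) (y : Pool.Agent.TH841.SH.D.Sha (tw (∏ i ∈ T, ((d i : ℤ) : ℚ)) (EK ℚ a b))),
      (2 ^ k : ℕ) • y = 0 → y = 0 := by
    intro k
    induction k with
    | zero =>
      intro y hy
      rwa [pow_zero, one_smul] at hy
    | succ k ih =>
      intro y hy
      apply ih
      apply key T
      rw [← two_nsmul, smul_smul, mul_comm, ← pow_succ]
      exact hy
  exact h4 k _ h3

theorem EK_ne' (F : Type) [Field F] [CharZero F] {a b : ℤ} (h : 4 * a ^ 3 + 27 * b ^ 2 ≠ 0) :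
    (EK F a b).Δ ≠ 0 := by
  have e : (EK F a b).Δ = ((-16 * (4 * a ^ 3 + 27 * b ^ 2) : ℤ) : F) := by
    simp only [WeierstrassCurve.Δ, WeierstrassCurve.b₂, WeierstrassCurve.b₄,
      WeierstrassCurve.b₆, WeierstrassCurve.b₈, EK]
    push_cast
    ring
  rw [e, Int.cast_ne_zero]
  exact mul_ne_zero (by norm_num) h

/-- finitely many points, and no element of order two in the Tate–Shafarevich group -/
def P0 (a b : ℤ) : Prop := Finite (EK ℚ a b).toAffine.Point ∧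
  ∀ x : Pool.Agent.TH841.SH.D.Sha (EK ℚ a b), x + x = 0 → x = 0

/-- the Abel–Jacobi map over a multiquadratic field -/
theorem aj_tw0 {a b : ℤ} (h0 : 4 * a ^ 3 + 27 * b ^ 2 ≠ 0) {k : ℕ}
    {r : Fin k → F} {m : Fin k → ℤ} (hr : ∀ i, r i ^ 2 = (m i : F)) (hm : ∀ i, m i ≠ 0)
    (hgen : IntermediateField.adjoin ℚ (Set.range r) = ⊤) (hc : Tw0 F a b P0) :
    AJ0 F (EK F a b) := by
  have hgal : IsGalois ℚ F := by
    refine Pool.Agent.V11329.KI.galois m r hr ?_
    intro S _ hS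
    rw [eq_top_iff]
    intro x _
    have hx : x ∈ IntermediateField.adjoin ℚ (Set.range r) := by
      rw [hgen]
      exact IntermediateField.mem_top
    induction hx using IntermediateField.adjoin_induction with
    | mem x hx =>
      obtain ⟨i, rfl⟩ := hx
      exact hS i
    | algebraMap q =>
      rw [eq_ratCast]
      exact SubfieldClass.ratCast_mem S q
    | add x y _ _ h1 h2 => exact add_mem (h1 trivial) (h2 trivial)
    | inv x _ h1 => exact inv_mem (h1 trivial)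
    | mul x y _ _ h1 h2 => exact mul_mem (h1 trivial) (h2 trivial)
  have hsq : ∀ σ : F ≃ₐ[ℚ] F, σ * σ = 1 := by
    intro σ
    have hri : ∀ i, σ (σ (r i)) = r i := by
      intro i
      have h1 : (σ (r i)) ^ 2 = (r i) ^ 2 := by
        rw [← map_pow, hr i, map_intCast]
      rcases sq_eq_sq_iff_eq_or_eq_neg.1 h1 with h2 | h2
      · rw [h2, h2]
      · rw [h2, map_neg, h2, neg_neg]
    ext x
    have hx : x ∈ IntermediateField.adjoin ℚ (Set.range r) := by
      rw [hgen]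
      exact IntermediateField.mem_top
    show σ (σ x) = x
    induction hx using IntermediateField.adjoin_induction with
    | mem x hx =>
      obtain ⟨i, rfl⟩ := hx
      exact hri i
    | algebraMap q => rw [AlgEquiv.commutes, AlgEquiv.commutes]
    | add x y _ _ h1 h2 => rw [map_add, map_add, h1, h2]
    | inv x _ h1 => rw [map_inv₀, map_inv₀, h1]
    | mul x y _ _ h1 h2 => rw [map_mul, map_mul, h1, h2]
  have hfin : Finite (EK F a b).toAffine.Point := by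
    refine fin0 h0 hsq ?_
    intro c hc1 hc2
    obtain ⟨a', b', g, h1, h2, h3, h4⟩ := hc c hc1 hc2
    exact ⟨a', b', g, h1, h2, h3, h4.1⟩
  refine aj_of_zero (EK_ne' F h0) hfin k (sha0 h0 hr hm hgen ?_)
  intro c hc1 hc2
  obtain ⟨a', b', g, h1, h2, h3, h4⟩ := hc c hc1 hc2
  exact ⟨a', b', g, h1, h2, h3, h4.2⟩

/-- **The Abel–Jacobi map for the twists of a curve over a multiquadratic field.** -/
theorem aj_twists {a₀ b₀ : ℤ} (h0 : 4 * a₀ ^ 3 + 27 * b₀ ^ 2 ≠ 0) {Ok : ℤ → Prop}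
    (hOk : ∀ e : ℤ, Squarefree e → Ok e → P0 (a₀ * e ^ 2) (b₀ * e ^ 3)) {d : ℤ} (hd : d ≠ 0)
    {k : ℕ} {r : Fin k → F} {m : Fin k → ℤ} (hr : ∀ i, r i ^ 2 = (m i : F)) (hm : ∀ i, m i ≠ 0)
    (hgen : IntermediateField.adjoin ℚ (Set.range r) = ⊤)
    (hT : ∀ (T : Finset (Fin k)) (e g : ℤ), Squarefree e → d * ∏ i ∈ T, m i = e * g ^ 2 → Ok e) :
    AJ0 F (EK F (a₀ * d ^ 2) (b₀ * d ^ 3)) := by
  refine aj_tw0 ?_ hr hm hgen ?_
  · have e : 4 * (a₀ * d ^ 2) ^ 3 + 27 * (b₀ * d ^ 3) ^ 2 = (4 * a₀ ^ 3 + 27 * b₀ ^ 2) * d ^ 6 := by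
      ring
    rw [e]
    exact mul_ne_zero h0 (pow_ne_zero 6 hd)
  · rintro c hc ⟨x, hx⟩
    obtain ⟨T, q, hq⟩ := kum hr hm hgen hx
    have hP : ∏ i ∈ T, m i ≠ 0 := Finset.prod_ne_zero_iff.2 fun i _ => hm i
    have hc0 := hc.ne_zero
    have hq0 : q ≠ 0 := by
      rintro rfl
      rw [zero_pow two_ne_zero] at hq
      exact mul_ne_zero hc0 hP hq
    obtain ⟨e, g, he, hg, heg⟩ := sqf_sq (d * ∏ i ∈ T, m i) (mul_ne_zero hd hP)
    have hoke := hOk e he (hT T e g he heg)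
    -- `d c P² = e (g q)²`
    have h1 : d * c * (∏ i ∈ T, m i) ^ 2 = e * (g * q) ^ 2 := by
      have : d * c * (∏ i ∈ T, m i) ^ 2 = (d * ∏ i ∈ T, m i) * (c * ∏ i ∈ T, m i) := by ring
      rw [this, heg, hq]
      ring
    obtain ⟨t, ht⟩ := dvd_of_sq he hP (Dvd.intro_left _ h1)
    have h2 : d * c = e * t ^ 2 := by
      rw [ht] at h1
      have h3 : (d * c) * (∏ i ∈ T, m i) ^ 2 = (e * t ^ 2) * (∏ i ∈ T, m i) ^ 2 := by
        rw [h1]
        ring
      exact mul_right_cancel₀ (pow_ne_zero 2 hP) h3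
    have ht0 : t ≠ 0 := by
      rintro rfl
      rw [zero_pow two_ne_zero, mul_zero] at h2
      exact mul_ne_zero hd hc0 h2
    refine ⟨a₀ * e ^ 2, b₀ * e ^ 3, t, ht0, ?_, ?_, hoke⟩
    · have : a₀ * d ^ 2 * c ^ 2 = a₀ * (d * c) ^ 2 := by ring
      rw [this, h2]
      ring
    · have : b₀ * d ^ 3 * c ^ 3 = b₀ * (d * c) ^ 3 := by ring
      rw [this, h2]
      ring

end Pool.Agent.H82.AJ
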