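import Pool.Agent.H3.MQ.R15

/-!
# The proportion of the quadratic extensions

The proof of `law` follows `Pool.Agent.H3.MQ.prop15` of helper3.
-/

set_option autoImplicit false

open scoped Classical

namespace Pool.Agent.H82.AJ

open Finset Filter
open Pool.Agent.H757_X15.DD (Fm Crit c1)
open Pool.Agent.H735X (tw lawD t_JDQ)
open Pool.Agent.H3.MQ (tw_spec sqf_unique nat_sq_of cls_part cls_mul_dec fm_prod)

/-- the squarefree parts of the numbers `N x_i` are good -/
def AX {ι : Type} (x : ι → ℕ) (N : ℕ) : Prop := ∀ (i : ι) (e g : ℕ), Squarefree e →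
  N * x i = e * g ^ 2 → Crit e ∧ e ≠ 1

/-- **the proportion** -/
theorem law {ι : Type} [Fintype ι] {x : ι → ℕ} (hx : ∀ i, x i ≠ 0) (hF : ∀ i, Fm (x i))
    (hI : ∀ i j, i ≠ j → ¬ IsSquare (x i * x j)) :
    Tendsto (fun X : ℕ => (((Icc 1 X).filter fun D => (Squarefree D ∧ Fm D) ∧ AX x D).card : ℝ) /
      (((Icc 1 X).filter fun D => Squarefree D ∧ Fm D).card : ℝ)) atTop
      (nhds (c1 ^ Fintype.card ι)) := by
  have hex : ∀ i, ∃ a b : ℕ, Squarefree a ∧ b ≠ 0 ∧ x i = a * b ^ 2 := by
    intro i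
    obtain ⟨a, b, hab, ha⟩ := Nat.sq_mul_squarefree (x i)
    refine ⟨a, b, ha, ?_, by rw [← hab, mul_comm]⟩
    rintro rfl
    rw [zero_pow two_ne_zero, zero_mul] at hab
    exact hx i hab.symm
  choose a b ha hb hab using hex
  have hcls : ∀ i, Fm (a i) := fun i => cls_part (b := b i) (by
    rw [← hab]
    exact hF i)
  -- distinct
  have hinj : Function.Injective a := by
    intro i j h
    by_contra hne
    apply hI i j hne
    rw [hab i, hab j, h]
    exact ⟨a j * b i * b j, by ring⟩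
  -- the criterion
  set T₀ : Finset ℕ := univ.image a with hT₀
  have hcard : T₀.card = Fintype.card ι := by
    rw [hT₀, card_image_of_injective _ hinj, card_univ]
  have key : ∀ D : ℕ, Squarefree D → D ∉ T₀ →
      (AX x D ↔ ∀ m ∈ T₀, (Crit (tw m D) ↔ m ∈ T₀)) := by
    intro D hD hDT
    have hD0 := hD.ne_zero
    constructor
    · intro h m hm
      refine ⟨fun _ => hm, fun _ => ?_⟩
      obtain ⟨i, -, rfl⟩ := mem_image.1 hm
      obtain ⟨h1, h2⟩ := tw_spec (ha i) hD
      refine (h i (tw (a i) D) (Nat.gcd (a i) D * b i) h1 ?_).1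
      rw [hab i]
      have : D * (a i * b i ^ 2) = (a i * D) * b i ^ 2 := by ring
      rw [this, h2]
      ring
    · intro h i e g he heg
      have hm : a i ∈ T₀ := mem_image_of_mem a (mem_univ i)
      obtain ⟨h1, h2⟩ := tw_spec (ha i) hD
      have hP : x i ≠ 0 := hx i
      have hg0 : g ≠ 0 := by
        rintro rfl
        rw [zero_pow two_ne_zero, mul_zero] at heg
        exact mul_ne_zero hD0 hP heg
      have hgcd : Nat.gcd (a i) D ≠ 0 := by
        have := Nat.gcd_pos_of_pos_right (a i) (Nat.pos_of_ne_zero hD0)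
        omega
      have he' : e = tw (a i) D := by
        refine sqf_unique he h1 hg0 (mul_ne_zero hgcd (hb i)) ?_
        rw [← heg, hab i]
        have : D * (a i * b i ^ 2) = (a i * D) * b i ^ 2 := by ring
        rw [this, h2]
        ring
      refine ⟨by rw [he']; exact (h _ hm).2 hm, ?_⟩
      intro h3
      rw [he'] at h3
      rw [h3, one_mul] at h2
      -- `a i * D` is a square: `D = a i`
      apply hDT
      have : D = a i := by
        refine sqf_unique (g := a i) (g' := Nat.gcd (a i) D) hD (ha i) (ha i).ne_zero hgcd ?_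
        rw [← h2]
        ring
      rw [this]
      exact hm
  have L := lawD t_JDQ T₀ T₀ (fun m hm => by
    obtain ⟨i, -, rfl⟩ := mem_image.1 hm
    exact ⟨ha i, hcls i⟩) (Subset.refl _)
  rw [sdiff_self, Finset.bot_eq_empty, card_empty, pow_zero, mul_one, hcard] at L
  -- the denominators
  have hTop : Tendsto (fun X : ℕ => (((Icc 1 X).filter fun D => Squarefree D ∧ Fm D).card : ℝ))
      atTop atTop := by
    have h1 := Pool.Agent.H757_X15.DD.t_DEN2
    unfold Pool.Agent.H757_X15.DD.S_DEN2 at h1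
    have h2 : Tendsto (fun X : ℕ => (X : ℝ)) atTop atTop := tendsto_natCast_atTop_atTop
    have h3 := h1.pos_mul_atTop (by positivity) h2
    refine h3.congr' ?_
    filter_upwards [eventually_gt_atTop 0] with X hX
    have : (X : ℝ) ≠ 0 := by positivity
    field_simp
  refine tendsto_of_tendsto_of_dist L ?_
  have h3 : Tendsto (fun X : ℕ => (T₀.card : ℝ) /
      (((Icc 1 X).filter fun D => Squarefree D ∧ Fm D).card : ℝ)) atTop (nhds 0) :=
    tendsto_const_nhds.div_atTop hTop
  refine squeeze_zero (fun X => dist_nonneg) (fun X => ?_) h3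
  rw [Real.dist_eq, ← sub_div, abs_div, abs_of_nonneg (Nat.cast_nonneg _ : (0 : ℝ) ≤
    (((Icc 1 X).filter fun D => Squarefree D ∧ Fm D).card : ℝ))]
  refine div_le_div_of_nonneg_right ?_ (Nat.cast_nonneg _)
  set A := (Icc 1 X).filter fun D => (Squarefree D ∧ Fm D) ∧
    ∀ m ∈ T₀, (Crit (tw m D) ↔ m ∈ T₀) with hA
  set B := (Icc 1 X).filter fun D => (Squarefree D ∧ Fm D) ∧ AX x D with hB
  have s1 : A ⊆ B ∪ T₀ := by
    intro D hD
    rw [hA, mem_filter] at hD
    rw [mem_union, hB, mem_filter]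
    by_cases h : D ∈ T₀
    · exact Or.inr h
    · exact Or.inl ⟨hD.1, hD.2.1, (key D hD.2.1.1 h).2 hD.2.2⟩
  have s2 : B ⊆ A ∪ T₀ := by
    intro D hD
    rw [hB, mem_filter] at hD
    rw [mem_union, hA, mem_filter]
    by_cases h : D ∈ T₀
    · exact Or.inr h
    · exact Or.inl ⟨hD.1, hD.2.1, (key D hD.2.1.1 h).1 hD.2.2⟩
  have c1' := (card_le_card s1).trans (card_union_le _ _)
  have c2' := (card_le_card s2).trans (card_union_le _ _)
  rw [abs_le]
  constructor
  · have : (B.card : ℝ) ≤ A.card + T₀.card := by exact_mod_cast c2'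
    linarith
  · have : (A.card : ℝ) ≤ B.card + T₀.card := by exact_mod_cast c1'
    linarith

theorem prod_cons {k : ℕ} (M : Fin k → ℕ) (N : ℕ) (T : Finset (Fin (k + 1))) :
    ∏ i ∈ T, (Fin.cons N M : Fin (k + 1) → ℕ) i =
      (if 0 ∈ T then N else 1) * ∏ i ∈ univ.filter fun i : Fin k => i.succ ∈ T, M i := by
  have h1 : ∏ i ∈ T, (Fin.cons N M : Fin (k + 1) → ℕ) i =
      ∏ i, if i ∈ T then (Fin.cons N M : Fin (k + 1) → ℕ) i else 1 := by
    rw [prod_ite_mem, univ_inter]
  rw [h1, Fin.prod_univ_succ, Fin.cons_zero, prod_filter]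
  simp only [Fin.cons_succ]

/-- **the proportion of the quadratic extensions** -/
theorem law_ext {k : ℕ} {M : Fin k → ℕ} {D : ℕ} (hM : ∀ i, Squarefree (M i) ∧ Fm (M i))
    (hD : Squarefree D ∧ Fm D)
    (hI : ∀ T : Finset (Fin k), T.Nonempty → ¬ IsSquare (∏ i ∈ T, M i))
    (hG : Pool.Agent.H3.MQ.AG M D) :
    Tendsto (fun X : ℕ => (((Icc 1 X).filter fun N => (Squarefree N ∧ Fm N) ∧
      Pool.Agent.H3.MQ.AG (Fin.cons N M : Fin (k + 1) → ℕ) D).card : ℝ) /
      (((Icc 1 X).filter fun D => Squarefree D ∧ Fm D).card : ℝ)) atTop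
      (nhds (c1 ^ 2 ^ k)) := by
  have h0 : ∀ i, M i ≠ 0 := fun i => (hM i).1.ne_zero
  have hP0 : ∀ T : Finset (Fin k), ∏ i ∈ T, M i ≠ 0 := fun T => prod_ne_zero_iff.2 fun i _ => h0 i
  have L := law (ι := Finset (Fin k)) (x := fun T => D * ∏ i ∈ T, M i)
    (fun T => mul_ne_zero hD.1.ne_zero (hP0 T))
    (fun T => cls_mul_dec hD.2 (fm_prod M (fun i => (hM i).2) T)) (by
      intro S S' hne hsq
      have hne' : (symmDiff S S').Nonempty := by
        rw [Finset.nonempty_iff_ne_empty]
        intro h1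
        exact hne (symmDiff_eq_bot.1 h1)
      apply hI _ hne'
      have e1 : (∏ i ∈ S, M i) * ∏ i ∈ S', M i =
          (∏ i ∈ symmDiff S S', M i) * (∏ i ∈ S ∩ S', M i) ^ 2 := by
        have d1 : ∏ i ∈ S, M i = (∏ i ∈ S \ S', M i) * ∏ i ∈ S ∩ S', M i := by
          rw [← Finset.prod_union (Finset.disjoint_sdiff_inter S S'), Finset.sdiff_union_inter]
        have d2 : ∏ i ∈ S', M i = (∏ i ∈ S' \ S, M i) * ∏ i ∈ S ∩ S', M i := by
          rw [Finset.inter_comm, ← Finset.prod_union (Finset.disjoint_sdiff_inter S' S),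
            Finset.sdiff_union_inter]
        have d3 : ∏ i ∈ symmDiff S S', M i = (∏ i ∈ S \ S', M i) * ∏ i ∈ S' \ S, M i := by
          have hdis : Disjoint (S \ S') (S' \ S) := disjoint_sdiff_sdiff
          rw [← Finset.prod_union hdis]
          rfl
        rw [d1, d2, d3]
        ring
      obtain ⟨z, hz⟩ := hsq
      refine nat_sq_of (y := D * ∏ i ∈ S ∩ S', M i) (z := z)
        (mul_ne_zero hD.1.ne_zero (hP0 _)) ?_
      have e2 : (∏ i ∈ symmDiff S S', M i) * (D * ∏ i ∈ S ∩ S', M i) ^ 2 =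
          D ^ 2 * ((∏ i ∈ symmDiff S S', M i) * (∏ i ∈ S ∩ S', M i) ^ 2) := by ring
      rw [e2, ← e1, sq z, ← hz]
      ring)
  rw [Fintype.card_finset, Fintype.card_fin] at L
  refine L.congr fun X => ?_
  congr 2
  congr 1
  ext N
  rw [mem_filter, mem_filter]
  refine and_congr_right fun _ => and_congr_right fun _ =>
    ⟨fun h T e g he hg => ?_, fun h T e g he hg => ?_⟩
  · rw [prod_cons] at hg
    by_cases h1 : 0 ∈ T
    · rw [if_pos h1] at hg
      refine h (univ.filter fun i : Fin k => i.succ ∈ T) e g he ?_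
      rw [← hg]
      ring
    · rw [if_neg h1, one_mul] at hg
      exact hG _ e g he hg
  · -- the set with `0`
    refine h (insert 0 (T.map (Fin.succEmb k))) e g he ?_
    rw [prod_cons, if_pos (mem_insert_self _ _)]
    have e3 : (univ.filter fun i : Fin k => i.succ ∈ insert 0 (T.map (Fin.succEmb k))) = T := by
      ext i
      rw [mem_filter, mem_insert, Finset.mem_map]
      constructor
      · rintro ⟨-, h1 | ⟨j, hj, hji⟩⟩
        · exact absurd h1 (Fin.succ_ne_zero i)
        · rw [← Fin.succ_injective k hji]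
          exact hj
      · intro hi
        exact ⟨mem_univ _, Or.inr ⟨i, hi, rfl⟩⟩
    rw [e3, ← hg]
    ring

end Pool.Agent.H82.AJ
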