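import Pool.Agent.H82.AJ.Tower

/-!
# The number fields in the infinite multiquadratic extension
-/

set_option autoImplicit false

open scoped Classical

namespace Pool.Agent.H82.AJ

open Finset
open Pool.Agent.H757_X15.DD (Fm Crit)
open Pool.Agent.H3.MQ (AG)

theorem symm_prod (M : ℕ → ℕ) (S S' : Finset ℕ) : (∏ i ∈ S, M i) * ∏ i ∈ S', M i =
    (∏ i ∈ symmDiff S S', M i) * (∏ i ∈ S ∩ S', M i) ^ 2 := by
  have d1 : ∏ i ∈ S, M i = (∏ i ∈ S \ S', M i) * ∏ i ∈ S ∩ S', M i := by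
    rw [← Finset.prod_union (Finset.disjoint_sdiff_inter S S'), Finset.sdiff_union_inter]
  have d2 : ∏ i ∈ S', M i = (∏ i ∈ S' \ S, M i) * ∏ i ∈ S ∩ S', M i := by
    rw [Finset.inter_comm, ← Finset.prod_union (Finset.disjoint_sdiff_inter S' S),
      Finset.sdiff_union_inter]
  have d3 : ∏ i ∈ symmDiff S S', M i = (∏ i ∈ S \ S', M i) * ∏ i ∈ S' \ S, M i := by
    have hdis : Disjoint (S \ S') (S' \ S) := disjoint_sdiff_sdiff
    rw [← Finset.prod_union hdis]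
    rfl
  rw [d1, d2, d3]
  ring

/-- a product of products is a product up to squares -/
theorem prod_prod {M : ℕ → ℕ} (h0 : ∀ i, M i ≠ 0) {j : ℕ} (T : Fin j → Finset ℕ)
    (S : Finset (Fin j)) : ∃ (U : Finset ℕ) (q : ℕ), q ≠ 0 ∧
      ∏ i ∈ S, ∏ l ∈ T i, M l = (∏ l ∈ U, M l) * q ^ 2 := by
  induction S using Finset.induction_on with
  | empty => exact ⟨∅, 1, one_ne_zero, by rw [prod_empty, prod_empty, one_pow, mul_one]⟩
  | insert i S hi ih =>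
    obtain ⟨U, q, hq, h⟩ := ih
    refine ⟨symmDiff (T i) U, (∏ l ∈ T i ∩ U, M l) * q,
      mul_ne_zero (prod_ne_zero_iff.2 fun l _ => h0 l) hq, ?_⟩
    rw [prod_insert hi, h, ← mul_assoc, symm_prod]
    ring

theorem all_sets {M : ℕ → ℕ} {D : ℕ} (hG : ∀ k : ℕ, AG (fun i : Fin k => M i) D)
    (U : Finset ℕ) (e g : ℕ) (he : Squarefree e) (h : D * ∏ l ∈ U, M l = e * g ^ 2) :
    Crit e ∧ e ≠ 1 := by
  obtain ⟨k, hk⟩ : ∃ k, ∀ l ∈ U, l < k := ⟨U.sup id + 1, fun l hl =>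
    Nat.lt_succ_of_le (Finset.le_sup (f := id) hl)⟩
  have e1 : ∏ l ∈ U, M l = ∏ i ∈ (univ.filter fun i : Fin k => (i : ℕ) ∈ U), M (i : ℕ) := by
    have e2 : U = (univ.filter fun i : Fin k => (i : ℕ) ∈ U).image fun i : Fin k => (i : ℕ) := by
      ext l
      rw [mem_image]
      constructor
      · intro hl
        exact ⟨⟨l, hk l hl⟩, mem_filter.2 ⟨mem_univ _, hl⟩, rfl⟩
      · rintro ⟨i, hi, rfl⟩
        exact (mem_filter.1 hi).2
    conv_lhs => rw [e2]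
    rw [prod_image fun x _ y _ h => Fin.ext h]
  rw [e1] at h
  exact hG k _ e g he h

/-- all the subfields -/
theorem sub_all {M : ℕ → ℕ} {D : ℕ} (h0 : ∀ i, M i ≠ 0)
    (hG : ∀ k : ℕ, AG (fun i : Fin k => M i) D) {j : ℕ} (T : Fin j → Finset ℕ) :
    AG (fun i : Fin j => ∏ l ∈ T i, M l) D := by
  intro S e g he h
  obtain ⟨U, q, hq, hU⟩ := prod_prod h0 T S
  rw [hU] at h
  have hqg : q ∣ g := by
    have h1 : ((q : ℤ) ^ 2) ∣ (e : ℤ) * (g : ℤ) ^ 2 := by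
      refine ⟨(D : ℤ) * ∏ l ∈ U, (M l : ℤ), ?_⟩
      have h2 : ((e * g ^ 2 : ℕ) : ℤ) = ((D * ((∏ l ∈ U, M l) * q ^ 2) : ℕ) : ℤ) := by rw [h]
      push_cast at h2
      rw [h2]
      ring
    exact Int.natCast_dvd_natCast.1 (Pool.Agent.H3.MQ.dvd_of_sq (Int.squarefree_natCast.2 he)
      (by exact_mod_cast hq) h1)
  obtain ⟨t, rfl⟩ := hqg
  refine all_sets hG U e t he ?_
  have h3 : (D * ∏ l ∈ U, M l) * q ^ 2 = (e * t ^ 2) * q ^ 2 := by
    calc (D * ∏ l ∈ U, M l) * q ^ 2 = D * ((∏ l ∈ U, M l) * q ^ 2) := by ring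
      _ = e * (q * t) ^ 2 := h
      _ = (e * t ^ 2) * q ^ 2 := by ring
  exact Nat.eq_of_mul_eq_mul_right (pow_pos (Nat.pos_of_ne_zero hq) 2) h3

theorem fm_sets {M : ℕ → ℕ} (hF : ∀ i, Fm (M i)) (U : Finset ℕ) : Fm (∏ l ∈ U, M l) := by
  induction U using Finset.induction_on with
  | empty => left; rw [prod_empty]; norm_num
  | insert i T hi ih =>
    rw [prod_insert hi]
    exact Pool.Agent.H3.MQ.cls_mul_dec (hF i) ih

theorem fm_ne {n : ℕ} (h : Fm n) : n ≠ 0 := by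
  rintro rfl
  rcases h with h | h <;> norm_num at h

end Pool.Agent.H82.AJ
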