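import Pool.Agent.H3.MQ.R15

/-!
# Infinite towers of multiquadratic fields
-/

set_option autoImplicit false

open scoped Classical

namespace Pool.Agent.H82.AJ

open Finset Filter
open Pool.Agent.H757_X15.DD (Fm Crit c1)
open Pool.Agent.H3.MQ (AG prop15)

/-- the class -/
def Cl (D : ℕ) : Prop := Squarefree D ∧ Fm D

/-- the squarefree parts of `N` times the products of elements of `S` are good -/
def Ok (S : Finset ℕ) (N : ℕ) : Prop := ∀ T ⊆ S, ∀ e g : ℕ, Squarefree e →
  N * ∏ n ∈ T, n = e * g ^ 2 → Crit e ∧ e ≠ 1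

/-- the elements of `S` are independent modulo squares -/
def Ind (S : Finset ℕ) : Prop := ∀ T ⊆ S, T.Nonempty → ¬ IsSquare (∏ n ∈ T, n)

theorem cl_infinite : {N : ℕ | Cl N}.Infinite := by
  rw [Set.infinite_iff_exists_gt]
  intro n
  obtain ⟨p, hp, hn, h⟩ := Nat.exists_prime_gt_modEq_one (k := 60) n (by norm_num)
  exact ⟨p, ⟨hp.squarefree, Or.inl h⟩, hn⟩

theorem cl_count : Tendsto (fun X : ℕ => (((Icc 1 X).filter fun D => Squarefree D ∧ Fm D).card : ℝ))
    atTop atTop := by
  rw [tendsto_atTop]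
  intro C
  obtain ⟨s, hs, hcard⟩ := cl_infinite.exists_subset_card_eq ⌈C⌉₊
  filter_upwards [eventually_ge_atTop (s.sup id)] with X hX
  refine (Nat.le_ceil C).trans ?_
  rw [← hcard]
  refine Nat.cast_le.2 (card_le_card fun N hN => ?_)
  have h1 : Cl N := hs hN
  rw [mem_filter, mem_Icc]
  refine ⟨⟨Nat.one_le_iff_ne_zero.2 h1.1.ne_zero, ?_⟩, h1⟩
  exact le_trans (Finset.le_sup (f := id) hN) hX

theorem exists_next (S : Finset ℕ) (hS : ∀ n ∈ S, Cl n) (hI : Ind S) (B : ℕ) :
    ∃ N, B < N ∧ Cl N ∧ Ok S N := by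
  by_contra hcon
  push Not at hcon
  obtain ⟨k, hk⟩ : ∃ k, k = S.card := ⟨_, rfl⟩
  obtain ⟨e⟩ : Nonempty (Fin k ≃ S) := ⟨(S.equivFinOfCardEq hk.symm).symm⟩
  obtain ⟨M, hM⟩ : ∃ M : Fin k → ℕ, ∀ i, M i = (e i : ℕ) := ⟨_, fun _ => rfl⟩
  have hinj : Function.Injective M := by
    intro i j h
    rw [hM, hM] at h
    exact e.injective (Subtype.ext h)
  have hmem : ∀ i, M i ∈ S := fun i => by rw [hM]; exact (e i).2
  have hprod : ∀ T : Finset (Fin k), ∏ i ∈ T, M i = ∏ n ∈ T.image M, n := by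
    intro T
    rw [prod_image fun x _ y _ h => hinj h]
  have hlim := prop15 M (fun i => hS _ (hmem i)) (fun T hT => by
    rw [hprod]
    exact hI _ (fun n hn => by
      obtain ⟨i, -, rfl⟩ := mem_image.1 hn
      exact hmem i) (hT.image _))
  -- the bound
  have hb : ∀ X : ℕ, (((Icc 1 X).filter fun D => (Squarefree D ∧ Fm D) ∧ AG M D).card : ℝ) ≤ B := by
    intro X
    have h1 : ((Icc 1 X).filter fun D => (Squarefree D ∧ Fm D) ∧ AG M D) ⊆ Icc 1 B := by
      intro N hN
      rw [mem_filter, mem_Icc] at hN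
      obtain ⟨⟨h1, h2⟩, h3, h4⟩ := hN
      rw [mem_Icc]
      refine ⟨h1, ?_⟩
      by_contra h5
      refine hcon N (not_le.1 h5) h3 ?_
      intro T hT e' g he hg
      -- the preimage
      have h6 : (univ.filter fun i => M i ∈ T).image M = T := by
        ext n
        rw [mem_image]
        constructor
        · rintro ⟨i, hi, rfl⟩
          exact (mem_filter.1 hi).2
        · intro hn
          refine ⟨e.symm ⟨n, hT hn⟩, ?_, ?_⟩
          · rw [mem_filter]
            refine ⟨mem_univ _, ?_⟩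
            rw [hM, e.apply_symm_apply]
            exact hn
          · rw [hM, e.apply_symm_apply]
      refine h4 (univ.filter fun i => M i ∈ T) e' g he ?_
      rw [hprod, h6]
      exact hg
    have h2 := card_le_card h1
    rw [Nat.card_Icc, Nat.add_sub_cancel] at h2
    exact_mod_cast h2
  have hz : Tendsto (fun X : ℕ => (B : ℝ) /
      (((Icc 1 X).filter fun D => Squarefree D ∧ Fm D).card : ℝ)) atTop (nhds 0) :=
    tendsto_const_nhds.div_atTop cl_count
  have hle := le_of_tendsto_of_tendsto' hlim hz fun X =>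
    div_le_div_of_nonneg_right (hb X) (Nat.cast_nonneg _)
  have hc : (0 : ℝ) < c1 := lt_trans (by norm_num) Pool.Agent.H757_X15.DD.t_LA1.2.2.2.1
  exact absurd hle (not_le.2 (pow_pos hc _))

/-- the finite sets -/
def St (D : ℕ) (S : Finset ℕ) : Prop := D ∈ S ∧ (∀ n ∈ S, Cl n) ∧ Ind S ∧ Ok (S.erase D) D

theorem step {D : ℕ} {S : Finset ℕ} (h : St D S) : ∃ N, S.sup id < N ∧ St D (insert N S) := by
  obtain ⟨h1, h2, h3, h4⟩ := h
  obtain ⟨N, hN1, hN2, hN3⟩ := exists_next S h2 h3 (S.sup id)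
  have hNS : N ∉ S := by
    intro h
    exact absurd (Finset.le_sup (f := id) h) (not_le.2 hN1)
  refine ⟨N, hN1, mem_insert_of_mem h1, ?_, ?_, ?_⟩
  · intro n hn
    rcases mem_insert.1 hn with rfl | hn
    · exact hN2
    · exact h2 n hn
  · intro T hT hne hsq
    by_cases hNT : N ∈ T
    · obtain ⟨q, hq⟩ := hsq
      rw [← mul_prod_erase T (fun n => n) hNT] at hq
      have hT' : T.erase N ⊆ S := by
        intro n hn
        obtain ⟨hn1, hn2⟩ := mem_erase.1 hn
        exact (mem_insert.1 (hT hn2)).resolve_left hn1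
      exact (hN3 _ hT' 1 q squarefree_one (by rw [hq, one_mul, sq])).2 rfl
    · refine h3 T ?_ hne hsq
      intro n hn
      refine (mem_insert.1 (hT hn)).resolve_left ?_
      rintro rfl
      exact hNT hn
  · intro T hT e g he hg
    by_cases hNT : N ∈ T
    · have hDT : D ∉ T := fun h => (mem_erase.1 (hT h)).1 rfl
      have hDT' : D ∉ T.erase N := fun h => hDT (mem_of_mem_erase h)
      refine hN3 (insert D (T.erase N)) ?_ e g he ?_
      · intro n hn
        rcases mem_insert.1 hn with rfl | hn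
        · exact h1
        · obtain ⟨hn1, hn2⟩ := mem_erase.1 hn
          exact (mem_insert.1 (mem_erase.1 (hT hn2)).2).resolve_left hn1
      · rw [prod_insert hDT', ← hg, ← mul_prod_erase T (fun n => n) hNT]
        ring
    · refine h4 T ?_ e g he hg
      intro n hn
      obtain ⟨hn1, hn2⟩ := mem_erase.1 (hT hn)
      refine mem_erase.2 ⟨hn1, (mem_insert.1 hn2).resolve_left ?_⟩
      rintro rfl
      exact hNT hn

/-- **infinite towers** -/
theorem tower {D : ℕ} (hD : Cl D) (hC : Crit D) (h1 : D ≠ 1) : ∃ M : ℕ → ℕ, StrictMono M ∧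
    (∀ i, Cl (M i)) ∧ (∀ T : Finset ℕ, T.Nonempty → ¬ IsSquare (∏ i ∈ T, M i)) ∧
    ∀ k : ℕ, AG (fun i : Fin k => M i) D := by
  have h0 : St D {D} := by
    refine ⟨mem_singleton_self D, ?_, ?_, ?_⟩
    · intro n hn
      rw [mem_singleton.1 hn]
      exact hD
    · intro T hT hne hsq
      rcases subset_singleton_iff.1 hT with h | h
      · exact hne.ne_empty h
      · rw [h, prod_singleton] at hsq
        obtain ⟨q, hq⟩ := hsq
        have h2 : IsUnit q := hD.1 q ⟨1, by rw [mul_one]; exact hq⟩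
        rw [Nat.isUnit_iff] at h2
        rw [h2, mul_one] at hq
        exact h1 hq
    · intro T hT e g he hg
      rw [erase_singleton, subset_empty] at hT
      rw [hT, prod_empty, mul_one] at hg
      have h2 : IsUnit g := hD.1 g ⟨e, by rw [hg]; ring⟩
      rw [Nat.isUnit_iff] at h2
      rw [h2, one_pow, mul_one] at hg
      rw [← hg]
      exact ⟨hC, h1⟩
  choose! nx hnx using fun S : Finset ℕ => (step : St D S → _)
  let S : ℕ → Finset ℕ := fun n => Nat.rec {D} (fun _ s => insert (nx s) s) n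
  have hS0 : S 0 = {D} := rfl
  have hS1 : ∀ n, S (n + 1) = insert (nx (S n)) (S n) := fun n => rfl
  have hSt : ∀ n, St D (S n) := by
    intro n
    induction n with
    | zero => exact h0
    | succ n ih =>
      rw [hS1]
      exact (hnx _ ih).2
  have hmono : Monotone S := monotone_nat_of_le_succ fun n => by
    rw [hS1]
    exact subset_insert _ _
  obtain ⟨M, hM⟩ : ∃ M : ℕ → ℕ, ∀ n, M n = nx (S n) := ⟨_, fun _ => rfl⟩
  have hMS : ∀ m n, m < n → M m ∈ S n := by
    intro m n h
    apply hmono (Nat.succ_le_of_lt h)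
    rw [Nat.succ_eq_add_one, hS1, hM]
    exact mem_insert_self _ _
  have hgt : ∀ n, (S n).sup id < M n := fun n => by
    rw [hM]
    exact (hnx _ (hSt n)).1
  have hMD : ∀ m, M m ≠ D := by
    intro m h
    have h2 := Finset.le_sup (f := id) (hSt m).1
    have h3 := hgt m
    rw [h] at h3
    exact absurd h2 (not_le.2 h3)
  have hsm : StrictMono M := strictMono_nat_of_lt_succ fun n =>
    lt_of_le_of_lt (Finset.le_sup (f := id) (hMS n (n + 1) (Nat.lt_succ_self n))) (hgt (n + 1))
  refine ⟨M, hsm, fun i => (hSt (i + 1)).2.1 _ (hMS i (i + 1) (Nat.lt_succ_self i)), ?_, ?_⟩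
  · intro T hT
    have e : ∏ i ∈ T, M i = ∏ n ∈ T.image M, n := by
      rw [prod_image fun x _ y _ h => hsm.injective h]
    rw [e]
    refine (hSt (T.sup id + 1)).2.2.1 _ ?_ (hT.image _)
    intro n hn
    obtain ⟨i, hi, rfl⟩ := mem_image.1 hn
    exact hMS _ _ (Nat.lt_succ_of_le (Finset.le_sup (f := id) hi))
  · intro k T e g he hg
    have hinj : Function.Injective fun i : Fin k => M i := fun i j h =>
      Fin.ext (hsm.injective h)
    have e1 : ∏ i ∈ T, M (i : ℕ) = ∏ n ∈ T.image fun i : Fin k => M i, n := by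
      rw [prod_image fun x _ y _ h => hinj h]
    rw [e1] at hg
    refine (hSt k).2.2.2 _ ?_ e g he hg
    intro n hn
    obtain ⟨i, -, rfl⟩ := mem_image.1 hn
    exact mem_erase.2 ⟨hMD _, hMS _ _ i.2⟩

end Pool.Agent.H82.AJ
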